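import Pool.Agent.Helper19.Un.D4Stmts

set_option autoImplicit false

namespace Pool.Agent.Helper19.Un

open MeasureTheory Topology
open scoped ComplexConjugate

/-! ### the weight at one vector -/

theorem dlow_muP {U : ℝ} (hU : 0 < U) :
    muP 2 (2 / 3) (Real.sqrt 3) (1 / U) * psD4 (1 / U)
      = 4 * Real.pi ^ 2 * max 0 (6 / 5 * (2 / (3 * U)) - 1) := by
  have hpi := Real.pi_pos
  obtain ⟨u, hu⟩ : ∃ u : ℝ, u = 1 / U := ⟨_, rfl⟩
  have hu0 : 0 < u := by rw [hu]; positivity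
  have e1 : 2 / (3 * U) = 2 / 3 * u := by rw [hu]; field_simp
  rw [e1, ← hu]
  unfold muP psD4
  by_cases h : u ≤ 5 / 4
  · have h1 : 6 / 5 - 3 / (2 * u) ≤ 0 := by
      have : 6 / 5 ≤ 3 / (2 * u) := by
        rw [le_div_iff₀ (by positivity)]
        linarith
      linarith
    have h2 : 6 / 5 * (2 / 3 * u) - 1 ≤ 0 := by linarith
    rw [max_eq_left h1, max_eq_left h2, mul_zero, mul_zero]
  · rw [not_le] at h
    have h3 : Real.sqrt 3 ^ 2 = 3 := Real.sq_sqrt (by norm_num)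
    have hs0 : 0 < Real.sqrt 3 := Real.sqrt_pos.2 (by norm_num)
    have hs2 : Real.sqrt 3 ≤ 2 := by
      rw [Real.sqrt_le_left (by norm_num)]
      norm_num
    have hmin : 4 * Real.pi ^ 2 * (2 / 3) * u ≤
        ((2 : ℕ) : ℝ) * (4 * Real.pi / Real.sqrt 3) * u + 4 * Real.pi ^ 2 / Real.sqrt 3 ^ 2 * u ^ 2 := by
      rw [h3]
      have hd : 2 * Real.pi ≤ 4 * Real.pi / Real.sqrt 3 := by
        rw [le_div_iff₀ hs0]
        nlinarith
      have hpi4 : Real.pi ≤ 4 := Real.pi_le_four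
      have h5 : 4 * Real.pi ^ 2 * (2 / 3) ≤ 2 * (2 * Real.pi) + 4 * Real.pi ^ 2 / 3 * u := by
        nlinarith [mul_pos hpi hpi, mul_pos (mul_pos hpi hpi) (sub_pos.2 h)]
      have h6 := mul_le_mul_of_nonneg_right h5 hu0.le
      have h7 := mul_le_mul_of_nonneg_right hd hu0.le
      push_cast
      nlinarith
    rw [min_eq_left hmin]
    have h1 : 0 ≤ 6 / 5 - 3 / (2 * u) := by
      have : 3 / (2 * u) ≤ 6 / 5 := by
        rw [div_le_iff₀ (by positivity)]
        linarith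
      linarith
    have h2 : 0 ≤ 6 / 5 * (2 / 3 * u) - 1 := by linarith
    rw [max_eq_right h1, max_eq_right h2]
    field_simp

/-! ### units -/

/-- coordinates of the six units of the Eisenstein integers -/
def dlow_c : Fin 6 → ℤ × ℤ := ![(1, 0), (0, 1), (-1, -1), (-1, 0), (0, -1), (1, 1)]

theorem dlow_c_inj : Function.Injective dlow_c := by decide

/-- the six units -/
noncomputable def dlow_u (k : Fin 6) : ℂ := (dlow_c k).1 + (dlow_c k).2 * om

theorem dlow_u_mem (k : Fin 6) : dlow_u k ∈ Eis := ⟨(dlow_c k).1, (dlow_c k).2, rfl⟩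

theorem dlow_u_norm (k : Fin 6) : ‖dlow_u k‖ = 1 := by
  have h3 : Real.sqrt 3 ^ 2 = 3 := Real.sq_sqrt (by norm_num)
  have h : ‖dlow_u k‖ ^ 2 = 1 := by
    rw [Complex.sq_norm, Complex.normSq_apply]
    unfold dlow_u om
    have hc : ∀ k : Fin 6, (dlow_c k).1 ^ 2 - (dlow_c k).1 * (dlow_c k).2 + (dlow_c k).2 ^ 2 = 1 := by
      decide
    have hk := hc k
    generalize (dlow_c k).1 = a at *
    generalize (dlow_c k).2 = b at *
    have hk' : (a : ℝ) ^ 2 - a * b + b ^ 2 = 1 := by exact_mod_cast hk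
    simp
    linear_combination hk' + (b ^ 2 / 4 : ℝ) * h3
  have h0 : 0 ≤ ‖dlow_u k‖ := norm_nonneg _
  nlinarith

theorem dlow_u_inj : Function.Injective dlow_u := by
  intro k k' h
  have hs0 : 0 < Real.sqrt 3 := Real.sqrt_pos.2 (by norm_num)
  apply dlow_c_inj
  have him := congrArg Complex.im h
  have hre := congrArg Complex.re h
  unfold dlow_u om at him hre
  simp at him hre
  have h2 : (dlow_c k).2 = (dlow_c k').2 := him
  rw [h2] at hre
  have h1 : (dlow_c k).1 = (dlow_c k').1 := by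
    have : ((dlow_c k).1 : ℝ) = (dlow_c k').1 := by linarith
    exact_mod_cast this
  exact Prod.ext h1 h2

/-! ### coordinates -/

theorem dlow_xc_sub (ζ b : E 2) (i : Fin 4) : xc (ζ - b) i = xc ζ i - xc b i := by
  unfold xc
  rw [inner_sub_right, Complex.sub_re]
  ring

/-- the lattice vector with coordinates `n` -/
noncomputable def dlow_b (n : Fin 4 → ℤ) : E 2 := ∑ i, (n i : ℝ) • eD i

theorem dlow_xc_b (hDISO : ST_DISO) (n : Fin 4 → ℤ) (i : Fin 4) : xc (dlow_b n) i = n i := by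
  unfold xc dlow_b
  rw [inner_sum, Complex.re_sum]
  have h : ∀ j, (inner ℂ (eD i) ((n j : ℝ) • eD j) : ℂ).re = if i = j then 3 / 2 * (n j : ℝ) else 0 := by
    intro j
    have h1 : ((n j : ℝ) • eD j : E 2) = ((n j : ℝ) : ℂ) • eD j := by
      rw [Complex.coe_smul]
    rw [h1, inner_smul_right, Complex.re_ofReal_mul, hDISO.1 i j]
    split_ifs <;> ring
  rw [Finset.sum_congr rfl fun j _ => h j, Finset.sum_ite_eq]
  simp
  ring

theorem dlow_b_mem (hDISO : ST_DISO) {n : Fin 4 → ℤ} (hn : Even (∑ i, n i)) : dlow_b n ∈ D4L :=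
  (hDISO.2.2.2 _).2 ⟨n, dlow_xc_b hDISO n, hn⟩

theorem dlow_dist (hDISO : ST_DISO) (ζ : E 2) (n : Fin 4 → ℤ) :
    2 / 3 * ‖ζ - dlow_b n‖ ^ 2 = sq (xc ζ) n := by
  rw [hDISO.2.2.1]
  unfold sq
  refine Finset.sum_congr rfl fun i _ => ?_
  rw [dlow_xc_sub, dlow_xc_b hDISO]

theorem dlow_b_norm (hDISO : ST_DISO) {n : Fin 4 → ℤ} (hn : Even (∑ i, n i)) :
    ∃ k : ℤ, ‖dlow_b n‖ ^ 2 = 3 * k := by
  have h := hDISO.2.2.1 (dlow_b n)
  have h2 : Even (∑ i, n i ^ 2) := by
    have e : ∑ i, n i ^ 2 = ∑ i, n i + ∑ i, n i * (n i - 1) := by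
      rw [← Finset.sum_add_distrib]
      exact Finset.sum_congr rfl fun i _ => by ring
    rw [e]
    refine hn.add ?_
    refine Finset.even_sum _ fun i _ => ?_
    have := Int.even_mul_succ_self (n i - 1)
    rw [sub_add_cancel] at this
    rw [mul_comm]
    exact this
  obtain ⟨k, hk⟩ := h2
  refine ⟨k, ?_⟩
  have h3 : ∑ i, xc (dlow_b n) i ^ 2 = ((∑ i, n i ^ 2 : ℤ) : ℝ) := by
    push_cast
    exact Finset.sum_congr rfl fun i _ => by rw [dlow_xc_b hDISO]
  rw [h3, hk] at h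
  push_cast at h
  linarith

/-! ### central translates -/

theorem dlow_th_mul (x k : ℤ) : (th * (x + k * om)).re = -(3 * k / 2) ∧
    (th * (x + k * om)).im = Real.sqrt 3 * (x - k / 2) := by
  have h3 : Real.sqrt 3 ^ 2 = 3 := Real.sq_sqrt (by norm_num)
  unfold th om
  constructor
  · simp
    linear_combination ((k : ℝ) / 2) * h3
  · simp
    ring

/-- `2 / √3` times the imaginary part of the product with `(a, b, 1)` -/
noncomputable def dlow_V (p : Pt 2) (a : ℂ) (b : E 2) : ℝ :=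
  2 / Real.sqrt 3 * (herm (vec p) ((a, b, 1) : V 2)).im

theorem dlow_herm (p : Pt 2) (a : ℂ) (b : E 2) :
    herm (vec p) ((a, b, 1) : V 2) = p.1 + inner ℂ b p.2 + conj a := by
  simp [herm, vec]

theorem dlow_two (hDISO : ST_DISO) (p : Pt 2) {n : Fin 4 → ℤ} (hn : Even (∑ i, n i)) :
    ∃ a a' : ℂ, a ≠ a' ∧ ND4 a (dlow_b n) ∧ ND4 a' (dlow_b n) ∧ |dlow_V p a (dlow_b n)| ≤ 1 ∧
      dlow_V p a' (dlow_b n) ^ 2 = (2 - |dlow_V p a (dlow_b n)|) ^ 2 := by
  obtain ⟨k, hk⟩ := dlow_b_norm hDISO hn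
  have hs0 : 0 < Real.sqrt 3 := Real.sqrt_pos.2 (by norm_num)
  have hmem := dlow_b_mem hDISO hn
  have hND : ∀ x : ℤ, ND4 (th * (x + k * om)) (dlow_b n) := by
    intro x
    refine ⟨⟨x + k * om, ⟨x, k, rfl⟩, rfl⟩, hmem, ?_⟩
    rw [(dlow_th_mul x k).1, hk]
    ring
  obtain ⟨c, hc⟩ : ∃ c : ℝ, ∀ x : ℤ, dlow_V p (th * (x + k * om)) (dlow_b n) = c - 2 * x := by
    refine ⟨2 / Real.sqrt 3 * ((p.1 + inner ℂ (dlow_b n) p.2).im + Real.sqrt 3 * (k / 2)), ?_⟩
    intro x
    unfold dlow_V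
    rw [dlow_herm, Complex.add_im, Complex.conj_im, (dlow_th_mul x k).2]
    field_simp
    ring
  have hne : ∀ x x' : ℤ, x ≠ x' → th * (x + k * om) ≠ th * (x' + k * om) := by
    intro x x' hx h
    apply hx
    have h1 := congrArg Complex.im h
    rw [(dlow_th_mul x k).2, (dlow_th_mul x' k).2] at h1
    have h2 := mul_left_cancel₀ hs0.ne' h1
    have h4 : (x : ℝ) = x' := by linarith
    exact_mod_cast h4
  obtain ⟨x, hx⟩ : ∃ x : ℤ, |c / 2 - x| ≤ 1 / 2 := ⟨round (c / 2), abs_sub_round _⟩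
  have hV : |dlow_V p (th * (x + k * om)) (dlow_b n)| ≤ 1 := by
    rw [hc]
    have e : c - 2 * x = 2 * (c / 2 - x) := by ring
    rw [e, abs_mul, abs_two]
    linarith
  by_cases hs : 0 ≤ c - 2 * x
  · refine ⟨th * (x + k * om), th * ((x + 1 : ℤ) + k * om), hne _ _ (by omega), hND x, hND (x + 1),
      hV, ?_⟩
    rw [hc, hc, abs_of_nonneg hs]
    push_cast
    ring
  · rw [not_le] at hs
    refine ⟨th * (x + k * om), th * ((x - 1 : ℤ) + k * om), hne _ _ (by omega), hND x, hND (x - 1),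
      hV, ?_⟩
    rw [hc, hc, abs_of_neg hs]
    push_cast
    ring

/-! ### the value of `uval` -/

theorem dlow_uval {p : Pt 2} (hp : p ∈ SD 2) {a : ℂ} {b : E 2} (hab : 2 * a.re + ‖b‖ ^ 2 = 0)
    {s : ℂ} (hs : ‖s‖ = 1) {w : V 2} (hw : th • w = s • ((a, b, 1) : V 2)) :
    uval w p = (3 * (2 / 3 * ‖p.2 - b‖ ^ 2 + 2 / 3 * hgt p) ^ 2 + 4 * dlow_V p a b ^ 2)
      / (24 * (2 / 3 * hgt p)) := by
  have hp0 : 0 < hgt p := hp
  have h3 : Real.sqrt 3 ^ 2 = 3 := Real.sq_sqrt (by norm_num)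
  have hs0 : 0 < Real.sqrt 3 := Real.sqrt_pos.2 (by norm_num)
  have e1 := uval_smul th w p
  rw [hw, uval_smul, hs] at e1
  have e2 : ‖th‖ ^ 2 = 3 := by
    rw [Complex.sq_norm, Complex.normSq_apply]
    unfold th
    simp
  rw [e2] at e1
  have e3 : uval ((a, b, 1) : V 2) p
      = ((herm (vec p) ((a, b, 1) : V 2)).re ^ 2 + (herm (vec p) ((a, b, 1) : V 2)).im ^ 2) / hgt p := by
    unfold uval
    rw [Complex.sq_norm, Complex.normSq_apply]
    ring
  have e4 : (herm (vec p) ((a, b, 1) : V 2)).re = -(hgt p + ‖p.2 - b‖ ^ 2) / 2 := by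
    rw [dlow_herm, norm_sub_sq_c]
    have e5 : (inner ℂ p.2 b : ℂ).re = (inner ℂ b p.2 : ℂ).re := by
      rw [← inner_conj b p.2, Complex.conj_re]
    rw [e5]
    simp only [Complex.add_re, Complex.conj_re]
    unfold hgt
    linear_combination (1 / 2 : ℝ) * hab
  have e6 : (herm (vec p) ((a, b, 1) : V 2)).im ^ 2 = 3 / 4 * dlow_V p a b ^ 2 := by
    unfold dlow_V
    rw [mul_pow, div_pow, h3]
    ring
  rw [e3, e4, e6] at e1
  have e7 : uval w p = 1 / 3 * (1 ^ 2 * (((-(hgt p + ‖p.2 - b‖ ^ 2) / 2) ^ 2 + 3 / 4 * dlow_V p a b ^ 2)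
      / hgt p)) := by
    rw [e1]; ring
  rw [e7]
  field_simp
  ring

theorem dlow_b_inj (hDISO : ST_DISO) {n n' : Fin 4 → ℤ} (h : dlow_b n = dlow_b n') : n = n' := by
  funext i
  have h1 := dlow_xc_b hDISO n i
  rw [h, dlow_xc_b hDISO n' i] at h1
  exact_mod_cast h1.symm

/-! ### the numerical inequality -/

theorem dlow_num {C : ℝ} (hC : 171 / 100 ≤ C) : (9 * 45 : ℝ) ≤ 6 * (4 * Real.pi ^ 2 * C) := by
  have hpi := Real.pi_gt_d4
  have h1 : (3.1415 : ℝ) ^ 2 ≤ Real.pi ^ 2 := by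
    apply pow_le_pow_left₀ (by norm_num)
    exact hpi.le
  nlinarith

theorem st_DLOW (hDISO : ST_DISO) (hDORB : ST_DORB) (hCELL : ST_CELL) (hLOWF : ST_LOWF)
    (hLOWX : ST_LOWX) : ST_DLOW := by
  intro p hp hH hmin
  have hp0 : 0 < hgt p := hp
  have hpi := Real.pi_pos
  obtain ⟨v, x, hinj, heven, hx, hsq⟩ := hCELL (xc p.2)
  obtain ⟨y, hy⟩ : ∃ y, y = 2 / 3 * hgt p := ⟨_, rfl⟩
  have hy1 : 1 ≤ y := by rw [hy]; linarith
  have hy0 : 0 < y := by linarith
  choose a a' hne hND hND' hV hV' using fun j => dlow_two hDISO p (heven j)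
  obtain ⟨A, hAt, hAf⟩ : ∃ A : (Fin 4 × Bool) → Bool → ℂ, (∀ j, A j true = a j) ∧
      (∀ j, A j false = a' j) := ⟨fun j ε => if ε then a j else a' j, fun _ => rfl, fun _ => rfl⟩
  have hAND : ∀ j ε, ND4 (A j ε) (dlow_b (v j)) := by
    intro j ε
    cases ε
    · rw [hAf]; exact hND' j
    · rw [hAt]; exact hND j
  choose W hW hW' using fun (s : Fin 6) (j : Fin 4 × Bool) (ε : Bool) =>
    hDORB.2.1 (A j ε) (dlow_b (v j)) (hAND j ε) (dlow_u s) (dlow_u_mem s) (dlow_u_norm s)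
  -- the family of orbit vectors
  obtain ⟨G, hGn, hGs⟩ : ∃ G : Fin 6 × Option ((Fin 4 × Bool) × Bool) → Orb MD4,
      (∀ s, (G (s, none) : V 2) = dlow_u s • w0) ∧
      (∀ s r, (G (s, some r) : V 2) = W s r.1 r.2) := by
    refine ⟨fun q => match q with
      | (s, none) => ⟨dlow_u s • w0, hDORB.2.2 _ (dlow_u_mem s) (dlow_u_norm s)⟩
      | (s, some r) => ⟨W s r.1 r.2, hW s r.1 r.2⟩, fun _ => rfl, fun _ _ => rfl⟩
  have hu0 : ∀ s, dlow_u s ≠ 0 := by
    intro s h
    have := dlow_u_norm s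
    rw [h, norm_zero] at this
    exact zero_ne_one this
  have hmix : ∀ s s' r, (G (s, none) : V 2) ≠ (G (s', some r) : V 2) := by
    intro s s' r h
    have h1 := congrArg (fun w : V 2 => (th • w).2.2) h
    simp only [hGn, hGs, hW'] at h1
    have h2 : (th • (dlow_u s • (w0 : V 2))).2.2 = 0 := by
      simp [w0]
    have h3 : (dlow_u s' • ((A r.1 r.2, dlow_b (v r.1), 1) : V 2)).2.2 = dlow_u s' := by
      simp
    rw [h2, h3] at h1
    exact hu0 s' h1.symm
  have hG : Function.Injective G := by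
    rintro ⟨s, o⟩ ⟨s', o'⟩ h
    have h0 : (G (s, o) : V 2) = (G (s', o') : V 2) := congrArg Subtype.val h
    cases o with
    | none =>
      cases o' with
      | none =>
        rw [hGn, hGn] at h0
        have h1 := congrArg (fun w : V 2 => w.1) h0
        have h2 : dlow_u s = dlow_u s' := by simpa [w0] using h1
        rw [dlow_u_inj h2]
      | some r => exact absurd h0 (hmix _ _ _)
    | some r =>
      cases o' with
      | none => exact absurd h0.symm (hmix _ _ _)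
      | some r' =>
        rw [hGs, hGs] at h0
        have h1 := congrArg (fun w : V 2 => th • w) h0
        simp only [hW'] at h1
        have h2 : dlow_u s = dlow_u s' := by
          have := congrArg (fun w : V 2 => w.2.2) h1
          simpa using this
        rw [h2] at h1
        have h3 : ((A r.1 r.2, dlow_b (v r.1), 1) : V 2) = (A r'.1 r'.2, dlow_b (v r'.1), 1) :=
          smul_right_injective _ (hu0 s') h1
        have h4 : dlow_b (v r.1) = dlow_b (v r'.1) := congrArg (fun w : V 2 => w.2.1) h3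
        have h5 : r.1 = r'.1 := hinj (dlow_b_inj hDISO h4)
        have h6 : A r.1 r.2 = A r'.1 r'.2 := congrArg (fun w : V 2 => w.1) h3
        have h7 : r.2 = r'.2 := by
          rw [← h5] at h6
          by_contra hc
          cases hr : r.2
          · have hr' : r'.2 = true := by
              cases hr' : r'.2
              · exact absurd (hr.trans hr'.symm) hc
              · rfl
            rw [hr, hr', hAf, hAt] at h6
            exact hne _ h6.symm
          · have hr' : r'.2 = false := by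
              cases hr' : r'.2
              · rfl
              · exact absurd (hr.trans hr'.symm) hc
            rw [hr, hr', hAf, hAt] at h6
            exact hne _ h6
        rw [dlow_u_inj h2, Prod.ext h5 h7]
  -- values
  have hval0 : ∀ s, 2 / (3 * uval (G (s, none) : V 2) p) = y := by
    intro s
    rw [hGn, uval_smul, dlow_u_norm, uval_w0, hy]
    field_simp
  have hvalU : ∀ s r, uval (G (s, some r) : V 2) p =
      (3 * (sq (xc p.2) (v r.1) + y) ^ 2 + 4 * dlow_V p (A r.1 r.2) (dlow_b (v r.1)) ^ 2) / (24 * y) := by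
    intro s r
    have h := dlow_uval hp (hAND r.1 r.2).2.2 (dlow_u_norm s) (hW' s r.1 r.2)
    rw [hGs, h, dlow_dist hDISO, hy]
  have hsq0 : ∀ j, 0 ≤ sq (xc p.2) (v j) := fun j => Finset.sum_nonneg fun i _ => sq_nonneg _
  have hval : ∀ s r, 2 / (3 * uval (G (s, some r) : V 2) p) = 16 * y /
      (3 * (sq (xc p.2) (v r.1) + y) ^ 2 + 4 * dlow_V p (A r.1 r.2) (dlow_b (v r.1)) ^ 2) := by
    intro s r
    have h0 := hsq0 r.1
    have hD : 0 < 3 * (sq (xc p.2) (v r.1) + y) ^ 2 +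
        4 * dlow_V p (A r.1 r.2) (dlow_b (v r.1)) ^ 2 := by positivity
    rw [hvalU]
    field_simp
    ring
  -- highest cusp
  have hhigh : ∀ j, 2 ≤ sq (xc p.2) (v j) + y := by
    intro j
    have h1 := hmin (G (0, some (j, true))) (G (0, some (j, true))).2
    rw [hvalU] at h1
    have hH' : hgt p = 3 / 2 * y := by rw [hy]; ring
    rw [hH', div_le_div_iff₀ (by positivity) (by positivity)] at h1
    have h2 : dlow_V p (A j true) (dlow_b (v j)) ^ 2 ≤ 1 := by
      rw [hAt]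
      have := hV j
      rw [← sq_abs]
      have h0 := abs_nonneg (dlow_V p (a j) (dlow_b (v j)))
      nlinarith
    have h0 := hsq0 j
    have h3 : 16 ≤ 3 * (sq (xc p.2) (v j) + y) ^ 2 + 4 * dlow_V p (A j true) (dlow_b (v j)) ^ 2 := by
      have h4 : 0 < y := hy0
      by_contra hc
      rw [not_le] at hc
      have := mul_lt_mul_of_pos_right hc (show 0 < 3 / 2 * y by positivity)
      simp only at h1
      nlinarith
    have h5 : 0 ≤ sq (xc p.2) (v j) + y := by positivity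
    nlinarith
  -- the sum
  have hFr : ∀ w : Orb MD4, ENNReal.ofReal (muP 2 (2 / 3) (Real.sqrt 3) (1 / uval w p) *
      psD4 (1 / uval w p)) = ENNReal.ofReal (4 * Real.pi ^ 2 *
        max 0 (6 / 5 * (2 / (3 * uval (w : V 2) p)) - 1)) := by
    intro w
    rw [dlow_muP (uval_pos w.2 hp)]
  rw [tsum_congr hFr]
  refine le_trans ?_ (ENNReal.tsum_comp_le_tsum_of_injective hG _)
  rw [tsum_fintype, ← ENNReal.ofReal_sum_of_nonneg (fun q _ => by positivity)]
  apply ENNReal.ofReal_le_ofReal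
  rw [Fintype.sum_prod_type]
  have hsum : ∀ s : Fin 6, ∑ o, 4 * Real.pi ^ 2 *
      max 0 (6 / 5 * (2 / (3 * uval (G (s, o) : V 2) p)) - 1)
      = 4 * Real.pi ^ 2 * (max 0 (6 / 5 * y - 1) + ∑ j : Fin 4 × Bool,
        (max 0 (96 / 5 * y / (3 * (sq (xc p.2) (v j) + y) ^ 2 + 4 * dlow_V p (a j) (dlow_b (v j)) ^ 2) - 1)
        + max 0 (96 / 5 * y / (3 * (sq (xc p.2) (v j) + y) ^ 2 +
          4 * (2 - |dlow_V p (a j) (dlow_b (v j))|) ^ 2) - 1))) := by
    intro s
    rw [← Finset.mul_sum]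
    congr 1
    rw [Fintype.sum_option, hval0]
    congr 1
    rw [Fintype.sum_prod_type]
    refine Finset.sum_congr rfl fun j _ => ?_
    rw [Fintype.sum_bool, hval, hval]
    simp only [hAt, hAf, hV']
    congr 2
    · congr 1; ring
    · congr 1; ring
  rw [Finset.sum_congr rfl fun s _ => hsum s, Finset.sum_const, Finset.card_univ, Fintype.card_fin,
    nsmul_eq_mul]
  push_cast
  apply dlow_num
  have h0y : 0 ≤ 6 / 5 * y - 1 := by linarith
  rw [max_eq_right h0y]
  by_cases hy2 : y ≤ 5 / 2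
  · have hx2 : ∀ i, 2 ≤ 1 + ∑ j, x j ^ 2 - 2 * |x i| + y := by
      intro i
      have h1 := hhigh (i, true)
      have h2 := hhigh (i, false)
      rw [(hsq i).1] at h1
      rw [(hsq i).2] at h2
      rcases abs_cases (x i) with h | h <;> rw [h.1] <;> linarith
    refine (hLOWX y x hy1 hy2 hx hx2).trans ?_
    gcongr
    rw [Fintype.sum_prod_type]
    refine Finset.sum_le_sum fun i _ => ?_
    rw [Fintype.sum_bool]
    have key : ∀ j : Fin 4 × Bool, 7 / 5 * max 0 (96 / 5 * y / (3 * (sq (xc p.2) (v j) + y) ^ 2 + 4) - 1)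
        ≤ max 0 (96 / 5 * y / (3 * (sq (xc p.2) (v j) + y) ^ 2 + 4 * dlow_V p (a j) (dlow_b (v j)) ^ 2) - 1)
        + max 0 (96 / 5 * y / (3 * (sq (xc p.2) (v j) + y) ^ 2 +
          4 * (2 - |dlow_V p (a j) (dlow_b (v j))|) ^ 2) - 1) := by
      intro j
      have h1 := hhigh j
      exact hLOWF _ _ _ (by nlinarith) (by positivity) (by linarith) (hV j)
    have k1 := key (i, true)
    have k2 := key (i, false)
    rw [(hsq i).1] at k1 ⊢
    rw [(hsq i).2] at k2 ⊢
    exact add_le_add k1 k2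
  · rw [not_le] at hy2
    have h1 : 0 ≤ ∑ j : Fin 4 × Bool,
        (max 0 (96 / 5 * y / (3 * (sq (xc p.2) (v j) + y) ^ 2 + 4 * dlow_V p (a j) (dlow_b (v j)) ^ 2) - 1)
        + max 0 (96 / 5 * y / (3 * (sq (xc p.2) (v j) + y) ^ 2 +
          4 * (2 - |dlow_V p (a j) (dlow_b (v j))|) ^ 2) - 1)) :=
      Finset.sum_nonneg fun j _ => add_nonneg (le_max_left _ _) (le_max_left _ _)
    linarith

end Pool.Agent.Helper19.Un
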